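import Pool.Agent.V5helper50.RC.Stm

/-!
# Project RC: existence of a chain of moduli
-/

set_option autoImplicit false

open Finset

namespace Pool.Agent.V5helper82.RC

/-- the factors of the chain: every prime occurs infinitely often -/
def s (i : ℕ) : ℕ := if (Nat.unpair i).1.Prime then (Nat.unpair i).1 else 1

lemma s_cases (i : ℕ) : s i = 1 ∨ (s i).Prime := by
  unfold s
  split_ifs with h
  · exact Or.inr h
  · exact Or.inl rfl

lemma s_pos (i : ℕ) : 1 ≤ s i := by
  rcases s_cases i with h | h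
  · omega
  · exact h.one_lt.le

/-- the moduli of the chain -/
def c (q₀ i : ℕ) : ℕ := q₀ * ∏ l ∈ range i, s l

lemma c_succ (q₀ i : ℕ) : c q₀ (i + 1) = c q₀ i * s i := by
  unfold c
  rw [prod_range_succ, mul_assoc]

lemma c_pos {q₀ : ℕ} (h : 1 ≤ q₀) (i : ℕ) : 1 ≤ c q₀ i := by
  unfold c
  exact Nat.mul_pos h (prod_pos fun l _ => s_pos l)

lemma dvd_prod (m : ℕ) : 1 ≤ m → ∃ i, m ∣ ∏ l ∈ range i, s l := by
  induction m using Nat.strong_induction_on with
  | _ m ih =>
    intro hm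
    by_cases h1 : m = 1
    · exact ⟨0, by simp [h1]⟩
    · have hp := Nat.minFac_prime h1
      obtain ⟨m', hm'⟩ := Nat.minFac_dvd m
      have hm'0 : 1 ≤ m' := by
        rcases Nat.eq_zero_or_pos m' with h | h
        · rw [h, mul_zero] at hm'; omega
        · exact h
      have hlt : m' < m := by
        have := hp.two_le
        nlinarith
      obtain ⟨i, hi⟩ := ih m' hlt hm'0
      set p := m.minFac with hpdef
      refine ⟨Nat.pair p i + 1, ?_⟩
      have hs : s (Nat.pair p i) = p := by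
        unfold s
        rw [Nat.unpair_pair]
        exact if_pos hp
      rw [prod_range_succ, hs, hm', mul_comm p m']
      apply Nat.mul_dvd_mul_right
      refine hi.trans (prod_dvd_prod_of_subset _ _ _ ?_)
      exact range_subset_range.2 (Nat.right_le_pair p i)

/-- the places of the jumps -/
def X (q₀ : ℕ) : ℕ → ℕ
  | 0 => 0
  | i + 1 => max (X q₀ i ^ 4 + 1) (2 ^ c q₀ (i + 1))

lemma le_pow4 (a : ℕ) : a ≤ a ^ 4 := by
  rcases Nat.eq_zero_or_pos a with h | h
  · simp [h]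
  · calc a = a ^ 1 := (pow_one a).symm
      _ ≤ a ^ 4 := Nat.pow_le_pow_right h (by norm_num)

lemma X_lt (q₀ i : ℕ) : X q₀ i < X q₀ (i + 1) := by
  have h1 := le_pow4 (X q₀ i)
  have h2 : X q₀ i ^ 4 + 1 ≤ X q₀ (i + 1) := le_max_left _ _
  omega

lemma X_strict (q₀ : ℕ) : StrictMono (X q₀) := strictMono_nat_of_lt_succ (X_lt q₀)

/-- the index of the modulus at `x` -/
noncomputable def idx (q₀ x : ℕ) : ℕ := Nat.findGreatest (fun i => X q₀ i ≤ x) x

lemma idx_le (q₀ x : ℕ) : X q₀ (idx q₀ x) ≤ x := by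
  classical
  exact Nat.findGreatest_spec (P := fun i => X q₀ i ≤ x) (Nat.zero_le x) (Nat.zero_le x)

lemma lt_idx (q₀ x : ℕ) : x < X q₀ (idx q₀ x + 1) := by
  classical
  by_contra h
  push Not at h
  have h1 : idx q₀ x + 1 ≤ x := ((X_strict q₀).le_apply).trans h
  have h2 : idx q₀ x + 1 ≤ idx q₀ x := Nat.le_findGreatest h1 h
  omega

lemma idx_eq {q₀ x i : ℕ} (h1 : X q₀ i ≤ x) (h2 : x < X q₀ (i + 1)) : idx q₀ x = i := by
  have h3 := idx_le q₀ x
  have h4 := lt_idx q₀ x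
  have h5 : i < idx q₀ x + 1 := (X_strict q₀).lt_iff_lt.1 (h1.trans_lt h4)
  have h6 : idx q₀ x < i + 1 := (X_strict q₀).lt_iff_lt.1 (h3.trans_lt h2)
  omega

lemma idx_succ (q₀ x : ℕ) : idx q₀ (x + 1) = idx q₀ x ∨
    (idx q₀ (x + 1) = idx q₀ x + 1 ∧ X q₀ (idx q₀ x + 1) = x + 1) := by
  have h1 := idx_le q₀ x
  have h2 := lt_idx q₀ x
  rcases Nat.lt_or_ge (x + 1) (X q₀ (idx q₀ x + 1)) with h | h
  · left
    exact idx_eq (by omega) h
  · right
    have h3 : X q₀ (idx q₀ x + 1) = x + 1 := by omega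
    refine ⟨idx_eq h ?_, h3⟩
    have := X_lt q₀ (idx q₀ x + 1)
    omega

theorem t_EXC : Pool.Agent.V5helper50.RC.S_EXC := by
  intro q₀ hq₀
  refine ⟨q₀, fun x => c q₀ (idx q₀ x), ⟨fun x => c_pos hq₀ _, ?_, ?_, ?_⟩, ?_, ?_⟩
  · intro x
    rcases idx_succ q₀ x with h | ⟨h, _⟩
    · left
      simp only [h]
    · rcases s_cases (idx q₀ x) with h1 | h1
      · left
        simp only [h, c_succ, h1, mul_one]
      · right
        exact ⟨_, h1, by simp only [h, c_succ]; rw [mul_comm]⟩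
  · intro x
    change c q₀ (idx q₀ x) ≤ q₀ + Nat.log 2 (x + 1)
    rcases Nat.eq_zero_or_pos (idx q₀ x) with h | h
    · rw [h]
      unfold c
      simp
    · obtain ⟨i, hi⟩ : ∃ i, idx q₀ x = i + 1 := ⟨idx q₀ x - 1, by omega⟩
      have h1 := idx_le q₀ x
      rw [hi] at h1 ⊢
      have h2 : 2 ^ c q₀ (i + 1) ≤ X q₀ (i + 1) := le_max_right _ _
      have h3 : c q₀ (i + 1) ≤ Nat.log 2 (x + 1) :=
        (Nat.le_log_iff_pow_le (by norm_num) (by omega)).2 (by omega)
      omega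
  · intro x y h hxy hy
    rcases idx_succ q₀ x with h1 | ⟨h1, h2⟩
    · exact absurd (by simp only [h1]) h
    · have h3 : idx q₀ y = idx q₀ x + 1 := by
        apply idx_eq
        · omega
        · have h4 : X q₀ (idx q₀ x + 1) ^ 4 + 1 ≤ X q₀ (idx q₀ x + 1 + 1) := le_max_left _ _
          rw [h2] at h4
          have h5 : x ^ 4 ≤ (x + 1) ^ 4 := Nat.pow_le_pow_left (by omega) 4
          omega
      simp only [h3, h1]
  · exact Dvd.intro _ rfl
  · intro m hm
    obtain ⟨i, hi⟩ := dvd_prod m hm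
    refine ⟨X q₀ i, ?_⟩
    have h1 : idx q₀ (X q₀ i) = i := idx_eq le_rfl (X_lt q₀ i)
    simp only [h1]
    exact hi.trans (Dvd.intro_left _ rfl)

end Pool.Agent.V5helper82.RC
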