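import Pool.Agent.V5helper50.RC.Stm

/-!
# Project RC: representations modulo `q` lift to all multiples of `q`
-/

set_option autoImplicit false

open Finset

namespace Pool.Agent.V5helper82.RC

open Pool.Agent.V5helper16.CT (LocalBound)

/-- `u` is a sum of `d` `k`-th powers modulo `m` -/
def Sol (k d m u : ℕ) : Prop := ∃ x : Fin d → ℕ, (∑ i, x i ^ k) ≡ u [MOD m]

lemma Sol.dvd {k d m m' u : ℕ} (h : Sol k d m u) (hm : m' ∣ m) : Sol k d m' u := by
  obtain ⟨x, hx⟩ := h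
  exact ⟨x, hx.of_dvd hm⟩

lemma sol_one (k d u : ℕ) : Sol k d 1 u := ⟨fun _ => 0, Nat.modEq_one⟩

/-- Chinese remainder theorem -/
lemma sol_mul {k d m n u : ℕ} (hmn : m.Coprime n) (h1 : Sol k d m u) (h2 : Sol k d n u) :
    Sol k d (m * n) u := by
  obtain ⟨x, hx⟩ := h1
  obtain ⟨y, hy⟩ := h2
  refine ⟨fun i => (Nat.chineseRemainder hmn (x i) (y i) : ℕ), ?_⟩
  rw [← Nat.modEq_and_modEq_iff_modEq_mul hmn]
  constructor
  · refine Nat.ModEq.trans ?_ hx
    exact Nat.ModEq.sum fun i _ => ((Nat.chineseRemainder hmn (x i) (y i)).2.1).pow k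
  · refine Nat.ModEq.trans ?_ hy
    exact Nat.ModEq.sum fun i _ => ((Nat.chineseRemainder hmn (x i) (y i)).2.2).pow k

lemma glue (k d u : ℕ) (n : ℕ) : n ≠ 0 →
    (∀ p : ℕ, p.Prime → Sol k d (p ^ n.factorization p) u) → Sol k d n u := by
  induction n using Nat.recOnPosPrimePosCoprime with
  | zero => intro h; exact absurd rfl h
  | one => intro _ _; exact sol_one k d u
  | prime_pow p n hp hn =>
    intro _ h
    have h1 := h p hp
    rwa [hp.factorization_pow, Finsupp.single_eq_same] at h1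
  | coprime a b ha hb hab iha ihb =>
    intro _ h
    have ha0 : a ≠ 0 := by omega
    have hb0 : b ≠ 0 := by omega
    refine sol_mul hab (iha ha0 fun p hp => ?_) (ihb hb0 fun p hp => ?_)
    · refine (h p hp).dvd (pow_dvd_pow p ?_)
      rw [Nat.factorization_mul ha0 hb0]
      exact Nat.le_add_right _ _
    · refine (h p hp).dvd (pow_dvd_pow p ?_)
      rw [Nat.factorization_mul ha0 hb0]
      exact Nat.le_add_left _ _

/-- Hensel's lemma for a coordinate prime to `p` -/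
lemma lift_prim {p v k γ d : ℕ} (hp : p.Prime) (hv : ¬ p ^ (v + 1) ∣ k) (hγ : 2 * v + 1 ≤ γ) (u : ℕ)
    (y : Fin d → ℕ) (hy : (∑ i, y i ^ k) ≡ u [MOD p ^ (2 * v + 1)]) (i : Fin d) (hi : ¬ p ∣ y i) :
    Sol k d (p ^ γ) u := by
  classical
  have : Fact p.Prime := ⟨hp⟩
  have hne : NeZero (p ^ γ) := ⟨pow_ne_zero _ hp.ne_zero⟩
  have hsum : ∑ j, ((y j : ℕ) : ZMod (p ^ γ)) ^ k =
      ((y i : ℕ) : ZMod (p ^ γ)) ^ k + ∑ j ∈ univ.erase i, ((y j : ℕ) : ZMod (p ^ γ)) ^ k :=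
    (add_sum_erase _ _ (mem_univ i)).symm
  obtain ⟨r, hr⟩ := Pool.Agent.V5helper16.CT.hensel_gen (p := p) (γ := γ) (v := v) (k := k) hv hγ
    ((y i : ℕ) : ZMod (p ^ γ)) ((u : ZMod (p ^ γ)) - ∑ j ∈ univ.erase i, ((y j : ℕ) : ZMod (p ^ γ)) ^ k)
    (by
      intro hcon
      have h1 : p ∣ p ^ γ := dvd_pow_self p (by omega)
      have h2 := map_dvd (ZMod.castHom h1 (ZMod p)) hcon
      rw [map_natCast, map_natCast, ZMod.natCast_self, zero_dvd_iff,
        ZMod.natCast_eq_zero_iff] at h2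
      exact hi h2)
    (by
      have h1 : ((p ^ (2 * v + 1) : ℕ) : ℤ) ∣ (u : ℤ) - ((∑ j, y j ^ k : ℕ) : ℤ) :=
        (Nat.modEq_iff_dvd.1 hy)
      obtain ⟨c, hc⟩ := h1
      refine ⟨(c : ZMod (p ^ γ)), ?_⟩
      have h2 := congrArg (fun z : ℤ => (z : ZMod (p ^ γ))) hc
      simp only [Int.cast_sub, Int.cast_mul, Int.cast_natCast] at h2
      rw [← h2, Nat.cast_sum]
      simp only [Nat.cast_pow]
      rw [hsum]
      ring)
  refine ⟨Function.update y i r.val, ?_⟩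
  rw [← ZMod.natCast_eq_natCast_iff, Nat.cast_sum]
  have h3 : ∑ j, ((Function.update y i r.val j ^ k : ℕ) : ZMod (p ^ γ)) =
      r ^ k + ∑ j ∈ univ.erase i, ((y j : ℕ) : ZMod (p ^ γ)) ^ k := by
    rw [← add_sum_erase _ _ (mem_univ i)]
    congr 1
    · rw [Function.update_self, Nat.cast_pow, ZMod.natCast_zmod_val]
    · refine sum_congr rfl fun j hj => ?_
      rw [Function.update_of_ne (ne_of_mem_erase hj), Nat.cast_pow]
  rw [h3, hr]
  ring

/-- more variables -/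
lemma ext_prim {k d d' m u : ℕ} (hk : k ≠ 0) (hd : d ≤ d') {p : ℕ} (y : Fin d → ℕ)
    (hy : (∑ i, y i ^ k) ≡ u [MOD m]) (i : Fin d) (hi : ¬ p ∣ y i) :
    ∃ y' : Fin d' → ℕ, (∑ i, y' i ^ k) ≡ u [MOD m] ∧ ∃ i, ¬ p ∣ y' i := by
  obtain ⟨e, rfl⟩ := Nat.exists_eq_add_of_le hd
  refine ⟨Fin.append y (fun _ => 0), ?_, ⟨Fin.castAdd e i, by rw [Fin.append_left]; exact hi⟩⟩
  rw [Fin.sum_univ_add]
  simp only [Fin.append_left, Fin.append_right, zero_pow hk, sum_const_zero, add_zero]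
  exact hy

/-- the large primes -/
lemma large (k : ℕ) (hk : 3 ≤ k) : ∃ p₀ : ℕ, ∀ p : ℕ, p.Prime → p₀ < p →
    ∀ d, k + 2 ≤ d → ∀ γ u : ℕ, Sol k d (p ^ γ) u := by
  obtain ⟨p₁, hp₁⟩ := exists_nat_gt (((k : ℝ) ^ (k + 2) + 1) ^ 2)
  refine ⟨max k p₁, fun p hp hlt d hd γ u => ?_⟩
  have hF : Fact p.Prime := ⟨hp⟩
  have hkp : k < p := (le_max_left _ _).trans_lt hlt
  have h1p : p₁ < p := (le_max_right _ _).trans_lt hlt
  rcases Nat.eq_zero_or_pos γ with h0 | hγ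
  · rw [h0, pow_zero]
    exact sol_one k d u
  have hnd : ¬ p ∣ k := fun h => absurd (Nat.le_of_dvd (by omega) h) (by omega)
  have h2 := (Pool.Agent.V5helper16.CT.P_one_bounds (p := p) (k := k) (by omega) (d := k + 2) (by omega)
    (u : ZMod (p ^ 1))).2
  have hpR : (0 : ℝ) < p := by exact_mod_cast hp.pos
  have hp1 : (1 : ℝ) ≤ p := by exact_mod_cast hp.one_lt.le
  set s : ℝ := √(p : ℝ) with hs
  have hs1 : 1 ≤ s := by rw [hs]; exact Real.one_le_sqrt.mpr hp1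
  have hs2 : (k : ℝ) ^ (k + 2) + 1 < s := by
    rw [hs]
    apply Real.lt_sqrt_of_sq_lt
    have : (p₁ : ℝ) < p := by exact_mod_cast h1p
    linarith
  have hs3 : ((k : ℝ) ^ (k + 2) + 1) / s ^ 3 < 1 := by
    rw [div_lt_one (by positivity)]
    calc (k : ℝ) ^ (k + 2) + 1 < s := hs2
      _ = s ^ 1 := (pow_one s).symm
      _ ≤ s ^ 3 := pow_le_pow_right₀ hs1 (by norm_num)
  have h3 : (0 : ℝ) < (Pool.Agent.V5helper16.CT.P p 1 k (k + 2) (u : ZMod (p ^ 1)) : ℝ) := by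
    refine lt_of_lt_of_le ?_ h2
    apply mul_pos (by linarith) (by positivity)
  have h4 : Pool.Agent.V5helper16.CT.P p 1 k (k + 2) (u : ZMod (p ^ 1)) ≠ 0 := by
    intro h
    rw [h, Nat.cast_zero] at h3
    exact lt_irrefl _ h3
  rw [Pool.Agent.V5helper16.CT.P_eq] at h4
  obtain ⟨x, hx⟩ := card_pos.mp (Nat.pos_of_ne_zero h4)
  rw [mem_filter] at hx
  obtain ⟨-, hx1, i, hi⟩ := hx
  have hne : NeZero (p ^ 1) := ⟨pow_ne_zero _ hp.ne_zero⟩
  obtain ⟨y, hy, j, hj⟩ := ext_prim (k := k) (m := p ^ 1) (u := u) (p := p) (by omega) hd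
    (fun i => (x i).val) (by
      rw [← ZMod.natCast_eq_natCast_iff, Nat.cast_sum, ← hx1]
      refine sum_congr rfl fun i _ => ?_
      rw [Nat.cast_pow, ZMod.natCast_zmod_val]) i (by
      rintro ⟨c, hc⟩
      apply hi
      refine ⟨(c : ZMod (p ^ 1)), ?_⟩
      rw [← Nat.cast_mul, ← hc, ZMod.natCast_zmod_val])
  exact lift_prim (v := 0) hp (by simpa using hnd) (by omega) u y (by simpa using hy) j hj

lemma two_v {p k : ℕ} (hp : p.Prime) (hk : 3 ≤ k) (h : ¬ (p = 2 ∧ k = 4)) :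
    2 * padicValNat p k + 1 ≤ k := by
  have hF : Fact p.Prime := ⟨hp⟩
  set v := padicValNat p k with hv
  have h1 : p ^ v ∣ k := pow_padicValNat_dvd
  have h2 : p ^ v ≤ k := Nat.le_of_dvd (by omega) h1
  have hp2 := hp.two_le
  rcases Nat.lt_or_ge v 3 with h3 | h3
  · interval_cases v
    · omega
    · omega
    · by_cases h4 : p = 2
      · subst h4
        have h5 : k ≠ 4 := fun h5 => h ⟨rfl, h5⟩
        obtain ⟨c, hc⟩ := h1
        omega
      · have h5 : 3 ≤ p := by omega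
        have h6 : 3 ^ 2 ≤ p ^ 2 := Nat.pow_le_pow_left h5 2
        omega
  · have h4 : ∀ n, 3 ≤ n → 2 * n + 1 ≤ 2 ^ n := by
      intro n hn
      induction n, hn using Nat.le_induction with
      | base => norm_num
      | succ n hn ih =>
        rw [pow_succ]
        omega
    have h5 : 2 ^ v ≤ p ^ v := Nat.pow_le_pow_left hp2 v
    have h6 := h4 v h3
    omega

lemma four_small : ∀ w < 32, (∑ i : Fin 16,
    (if i.val = 0 then (if w = 0 ∨ 17 ≤ w then 3 else 1) else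
      if i.val < (w + 15) % 16 + 1 then 1 else 0) ^ 4) % 32 = w := by
  decide +kernel

/-- `k = 4`, `p = 2` -/
lemma four (d : ℕ) (hd : 16 ≤ d) (γ u : ℕ) (hγ : 5 ≤ γ) : Sol 4 d (2 ^ γ) u := by
  set w := u % 32 with hw
  have hwlt : w < 32 := Nat.mod_lt _ (by norm_num)
  have h1 := four_small w hwlt
  obtain ⟨y, hy, j, hj⟩ := ext_prim (k := 4) (d := 16) (m := 32) (u := u) (p := 2) (by norm_num) hd
    (fun i => if i.val = 0 then (if w = 0 ∨ 17 ≤ w then 3 else 1) else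
      if i.val < (w + 15) % 16 + 1 then 1 else 0) (by
      unfold Nat.ModEq
      rw [h1]) ⟨0, by norm_num⟩ (by
      simp only [if_true]
      split_ifs <;> norm_num)
  exact lift_prim (v := 2) Nat.prime_two (by norm_num) (by omega) u y (by norm_num; exact hy) j hj

/-- the small primes -/
lemma small {k d p : ℕ} (hk : 3 ≤ k) (hd : LocalBound k d) (hp : p.Prime) {e e' u : ℕ}
    (he : 2 * padicValNat p k + 1 ≤ e) (he' : e ≤ e') (h : Sol k d (p ^ e) u) :
    Sol k d (p ^ e') u := by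
  have hF : Fact p.Prime := ⟨hp⟩
  by_cases hc : p = 2 ∧ k = 4
  · obtain ⟨rfl, rfl⟩ := hc
    have hv : padicValNat 2 4 = 2 := by
      have : (4 : ℕ) = 2 ^ 2 := by norm_num
      rw [this, padicValNat.prime_pow]
    rw [hv] at he
    have h2 := hd.2.1 (by norm_num)
    rw [hv] at h2
    exact four d (by norm_num at h2; exact h2) e' u (by omega)
  · have hv := two_v hp hk hc
    set v := padicValNat p k with hvd
    have hnv : ¬ p ^ (v + 1) ∣ k := pow_succ_padicValNat_not_dvd (by omega : k ≠ 0)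
    obtain ⟨x, hx⟩ := h
    have hx' : (∑ i, x i ^ k) ≡ u [MOD p ^ (2 * v + 1)] := hx.of_dvd (pow_dvd_pow p he)
    by_cases hi : ∃ i, ¬ p ∣ x i
    · obtain ⟨i, hi⟩ := hi
      exact lift_prim hp hnv (by omega) u x hx' i hi
    · push Not at hi
      have h1 : p ^ (2 * v + 1) ∣ ∑ i, x i ^ k :=
        dvd_sum fun i _ => (pow_dvd_pow p hv).trans (pow_dvd_pow_of_dvd (hi i) k)
      have h2 : p ^ (2 * v + 1) ∣ u := (hx'.dvd_iff dvd_rfl).1 h1
      obtain ⟨y, hy, i, hyi⟩ := Pool.Agent.V5helper16.CT.iso_all hp hk hd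
      refine lift_prim hp hnv (by omega) u y ?_ i hyi
      exact ((Nat.modEq_zero_iff_dvd).2 hy).trans ((Nat.modEq_zero_iff_dvd).2 h2).symm

theorem t_LIFT : Pool.Agent.V5helper50.RC.S_LIFT := by
  classical
  intro k hk
  obtain ⟨p₀, hp₀⟩ := large k hk
  set q₀ : ℕ := ∏ p ∈ (range (p₀ + 1)).filter Nat.Prime, p ^ (2 * padicValNat p k + 1) with hq₀
  have hq₀1 : 1 ≤ q₀ := Nat.one_le_iff_ne_zero.2 (prod_ne_zero_iff.2 fun p hp =>
    pow_ne_zero _ (mem_filter.1 hp).2.ne_zero)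
  refine ⟨q₀, hq₀1, fun d hd q q' u hq' hqq hqq' h => ?_⟩
  have hq'0 : q' ≠ 0 := by omega
  have hq0 : q ≠ 0 := fun h0 => hq'0 (by rw [h0, zero_dvd_iff] at hqq'; exact hqq')
  have hS : Sol k d q u := h
  have hfin : Sol k d q' u := by
    apply glue k d u q' hq'0
    intro p hp
    rcases Nat.lt_or_ge p₀ p with hlt | hle
    · exact hp₀ p hp hlt d hd.1 _ u
    · refine small hk hd hp (e := q.factorization p) ?_ ?_ (hS.dvd (Nat.ordProj_dvd q p))
      · rw [← hp.pow_dvd_iff_le_factorization hq0]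
        refine dvd_trans ?_ hqq
        exact dvd_prod_of_mem (fun p => p ^ (2 * padicValNat p k + 1))
          (mem_filter.2 ⟨mem_range.2 (by omega), hp⟩)
      · exact (Nat.factorization_le_iff_dvd hq0 hq'0).2 hqq' p
  exact hfin

end Pool.Agent.V5helper82.RC
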