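import Pool.Agent.V5helper50.RC.Stm
import Pool.Agent.V5helper47.RS.CNV

/-!
# Project RC: the lower bound for the number of the solutions modulo `q`
-/

set_option autoImplicit false

open Finset

namespace Pool.Agent.V5helper82.RC

open Pool.Agent.V5helper50.RS (M)

theorem t_LOCL : Pool.Agent.V5helper50.RC.S_LOCL := by
  intro k d hk h
  obtain ⟨c, C, hc, _, H⟩ := Pool.Agent.V5helper16.CT.order_of_local hk h
  refine ⟨c, hc, fun q u hq hx => ?_⟩
  haveI : NeZero q := ⟨by omega⟩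
  have h1 := Pool.Agent.V5helper47.RS.t_CNV k q d u hq
  have h2 : Pool.Agent.V5helper16.CT.N q k d (u : ZMod q) ≠ 0 := by
    unfold Pool.Agent.V5helper16.CT.N
    rw [Nat.card_ne_zero]
    refine ⟨?_, inferInstance⟩
    obtain ⟨x, hx⟩ := hx
    refine ⟨⟨fun i => ((x i : ℕ) : ZMod q), ?_⟩⟩
    have h3 := (ZMod.natCast_eq_natCast_iff' (∑ i, x i ^ k) u q).2 hx
    rw [← h3, Nat.cast_sum]
    exact sum_congr rfl fun i _ => (Nat.cast_pow _ _).symm
  rw [h1]
  exact (H q hq (u : ZMod q) h2).1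

end Pool.Agent.V5helper82.RC
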